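import Pool.Agent.Lib.MP_a7b2aa_an.SBT.AllW30

/-!
MP_a7b2aa_an, dimension 3: the trigonometric small ball inequality for ALL coefficients with the
conjectured exponent of `n` and one logarithm:
`C ∑ ‖P_s‖_1 ≤ n ^ (1 / 2) log (n + 1) ‖∑ P_s‖_∞`.

Proof. (1) Theorem W: for real functions `G_j` of two sign vectors `η, ζ` whose part beyond `(p, q)`,
`p + q = j`, is `η_p ζ_q c_pq(η_<p, ζ_<q)` up to a small multiple of `|c_pq|` (the leak), and for
every law `ρ` of `(η, ζ)`,
`E_ρ #{(p, q) : |c_pq| ≥ 1} ≤ C K (relative entropy + ∑_j E_ρ min(G_j² / K, |G_j| / √K))`. It is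
proved by adding noise to the `G_j` and comparing, for every pair, what the prefix of `G_j` and its
complement reveal about `η_p` and `ζ_q` (entropy chain rules in two directions).
(2) An exponential martingale in the first variable, with a bonus for the number of large
coefficients, gives for a bounded function `H` of three sign vectors
`∑ E |D_ipq H| ≤ C √L log(L + 1) sup |H| + C (weighted sum of the finer mixed differences)`.
(3) Trigonometric polynomials: the free signs are placed at a constant distance `b`, all other binary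
digits are replaced by a uniform base point of a discrete torus. Bernstein's inequality for
differences makes the finer mixed differences a small multiple of the whole sum, and the critical
ones control `‖P_s‖_1` (a block is extracted by de la Vallee Poussin kernels, and the difference
operator is inverted on a dyadic block with a Jackson kernel).
-/

set_option autoImplicit false

namespace Pool.Agent.Results.MP_a7b2aa_an.AllCoefficients3

/-- There is `C > 0` such that for every even `n = 2 m ≥ 2` and all complex coefficients,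
`C ∑_{s ∈ Y^3_n} ‖P_s‖_1 ≤ n ^ (1 / 2) log (n + 1) ‖∑_{s ∈ Y^3_n} P_s‖_∞`. -/
theorem result :
    ∃ C : ℝ, 0 < C ∧ ∀ m : ℕ, 1 ≤ m → ∀ c : (Fin 3 → ℤ) → ℂ,
      C * ∑ l ∈ Finset.Nat.antidiagonalTuple 3 m,
          (1 / (2 * Real.pi)) ^ 3 *
            ∫ x in Set.pi Set.univ (fun _ : Fin 3 => Set.Icc (0:ℝ) (2 * Real.pi)),
              ‖∑ k ∈ Fintype.piFinset (fun j : Fin 3 =>
                    (Finset.Ioo (-(2:ℤ) ^ (2 * l j)) ((2:ℤ) ^ (2 * l j))).filter
                      (fun t : ℤ => (2:ℤ) ^ (2 * l j) / 2 ≤ |t|)),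
                  c k * Complex.exp (Complex.I * ∑ j : Fin 3, ((((k j : ℝ) * x j : ℝ)) : ℂ))‖
        ≤ ((2 * m : ℕ) : ℝ) ^ ((1 : ℝ) / 2) * Real.log (2 * m + 1) *
          ⨆ x : Fin 3 → ℝ,
            ‖∑ l ∈ Finset.Nat.antidiagonalTuple 3 m,
              ∑ k ∈ Fintype.piFinset (fun j : Fin 3 =>
                    (Finset.Ioo (-(2:ℤ) ^ (2 * l j)) ((2:ℤ) ^ (2 * l j))).filter
                      (fun t : ℤ => (2:ℤ) ^ (2 * l j) / 2 ≤ |t|)),
                c k * Complex.exp (Complex.I * ∑ j : Fin 3, ((((k j : ℝ) * x j : ℝ)) : ℂ))‖ := by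
  obtain ⟨C, hC, h⟩ := Pool.Agent.SBT.final_all
  exact ⟨C, hC, fun m c1 c2 => h m c2 c1⟩

end Pool.Agent.Results.MP_a7b2aa_an.AllCoefficients3
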