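import Pool.Agent.Lib.MP_a7b2aa_an.SHX.AllX65

/-!
MP_a7b2aa_an, every dimension `d ≥ 3`, ALL coefficients: the conjectured factor
`n ^ ((d - 2) / 2)`, up to a power of `log (n + 1)`.

Proof, `d = m + 1`.
(1) Trigonometric part, on a grid with `2 ^ L` points in every coordinate, `L = n + 3`, whose points
are written in binary: `m + 1` strings of `L` signs. The Haar coefficients of a real function on the
grid with absolute value at most `D` and frequencies in a slight enlargement of the block `s` are at
most `C 2 ^ (-|q - s|_1) D` in the cell `q`. So, after division by the sup norm, `F = ∑ P_s` becomes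
a function `H = ∑_q (product of the signs q) v_q`, `v_q` a function of the signs before `q`, with
`|v_q| ≤ (3 / 4) ^ |q_0 + ... + q_m - N|`, and by duality (the sign of `P_s`, restricted to the block
by a kernel) `∑ ‖P_s‖_1` is at most a constant times `∑_q E |v_q|`.
(2) Abstract part: if `|H| ≤ 1` then `∑_q E |v_q|` is at most `L ^ ((m - 1) / 2)` times a power of
`log L`. Let `u_q = sgn v_q` in a band of `O(log L)` levels around `N`, `u_q = 0` at all other
levels, and `λ = L ^ (-(m - 1) / 2)` divided by a power of `log L`. There is an exact law of the
`m + 1` strings of signs: at every class `q` of any level (the first `q_a` signs of the string `a`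
are known) the joint cumulant of the `m + 1` next signs is `λ u_q`. Up to the band its density is between `1 / 2` and `2` and its Haar
coefficients are `λ u_q` up to `O(λ ^ 2)`, so the mean of `H` gives `λ ∑_q E |v_q|`, if the law
is positive. For this all cumulants of the next signs must be small at all classes. The class
is called good if all flattening norms of the cumulants, as arrays in the indices of their own
signs, are small, also after summation against Walsh functions in the times of the other strings;
the Walsh functions separate products and truncations at the price of a logarithm. The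
cumulants satisfy a closed system: when one sign of a string is revealed, the cumulant of a set
of strings moves by a multiple (a cumulant of one more string, and products) of that centred
sign. So a cumulant of `j` strings is a sum of centred signs with coefficients cumulants of
`j + 1` strings; this sum, in which the mean of the centred sign is taken at a moving class, is a
chain of matrix martingales plus a remainder that is small after `O(log L)` steps, and the matrix
Freedman inequality gives all norms with one more power of the logarithm. The top cumulants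
are `λ u` and have norm at most `λ L ^ ((m - 1) / 2)` times a power of `log L`: this is the
exponent `(d - 2) / 2`. Finally, minimal bad classes have total mass `O(L ^ (-k))`, and the law is
stopped there.
-/

set_option autoImplicit false

namespace Pool.Agent.Results.MP_a7b2aa_an.AllDimensions

/-- For every `d ≥ 3` there are `E` and `C > 0` (they depend on `d` only) such that for every even
`n = 2 m ≥ 2` and all complex coefficients,
`C ∑_{s ∈ Y^d_n} ‖P_s‖_1 ≤ n ^ ((d - 2) / 2) (log (n + 1)) ^ E ‖∑_{s ∈ Y^d_n} P_s‖_∞`. -/
theorem result :
    ∀ d : ℕ, 3 ≤ d → ∃ (E : ℕ) (C : ℝ), 0 < C ∧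
      ∀ m : ℕ, 1 ≤ m → ∀ c : (Fin d → ℤ) → ℂ,
      C * ∑ l ∈ Finset.Nat.antidiagonalTuple d m,
          (1 / (2 * Real.pi)) ^ d *
            ∫ x in Set.pi Set.univ (fun _ : Fin d => Set.Icc (0:ℝ) (2 * Real.pi)),
              ‖∑ k ∈ Fintype.piFinset (fun j : Fin d =>
                    (Finset.Ioo (-(2:ℤ) ^ (2 * l j)) ((2:ℤ) ^ (2 * l j))).filter
                      (fun t : ℤ => (2:ℤ) ^ (2 * l j) / 2 ≤ |t|)),
                  c k * Complex.exp (Complex.I * ∑ j : Fin d, ((((k j : ℝ) * x j : ℝ)) : ℂ))‖
        ≤ ((2 * m : ℕ) : ℝ) ^ (((d : ℝ) - 2) / 2) * Real.log (((2 * m : ℕ) : ℝ) + 1) ^ E *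
          ⨆ x : Fin d → ℝ,
            ‖∑ l ∈ Finset.Nat.antidiagonalTuple d m,
              ∑ k ∈ Fintype.piFinset (fun j : Fin d =>
                    (Finset.Ioo (-(2:ℤ) ^ (2 * l j)) ((2:ℤ) ^ (2 * l j))).filter
                      (fun t : ℤ => (2:ℤ) ^ (2 * l j) / 2 ≤ |t|)),
                c k * Complex.exp (Complex.I * ∑ j : Fin d, ((((k j : ℝ) * x j : ℝ)) : ℂ))‖ := by
  intro d hd
  obtain ⟨m, rfl⟩ : ∃ m, d = m + 1 := ⟨d - 1, by omega⟩
  obtain ⟨E, C, hC, h⟩ := Pool.Agent.SHXA.finx_65 m (by omega)
  refine ⟨E, C, hC, fun n hn c => ?_⟩
  have h1 := h n c hn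
  have e1 : (((m + 1 : ℕ) : ℝ) - 2) / 2 = ((m : ℝ) - 1) / 2 := by
    push_cast
    ring
  rw [e1]
  exact h1

end Pool.Agent.Results.MP_a7b2aa_an.AllDimensions
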