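import Pool.Agent.Lib.MP_a7b2aa_an.SBF.All65

/-!
MP_a7b2aa_an, dimension 3: the trigonometric small ball inequality with the conjectured factor
`n ^ (1 / 2)` and NO logarithm, in weak type form, for polynomials whose blocks are flat inside
(`‖P_s‖_2 ≤ K ‖P_s‖_1`, for example one frequency in each block); in particular the signed small
ball inequality: one unimodular term in each block gives `‖∑ P_s‖_∞ ≥ c n ^ (3 / 2)`.

Proof. (1) The level inequality of the library `SBT`: for a bounded function `H` of three sign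
vectors and every `w`, `w E #{(i, p, q) : |c_ipq| ≥ w, leaks ≤ δ w} ≤ C √L sup |H|` (no logarithm;
the logarithm of AllCoefficients3 comes from the summation over `w`).
(2) For a block `l` whose neighbours `l'` have size at most `R w ρ ^ dist(l, l')`, the mixed
difference of the whole sum at the position of `l` has mean at least `c w` and second moment at most
`C w ^ 2`, so that (Paley-Zygmund) it is at least `c w` with probability at least `c`; for a large
gap `β` between the free signs the leaks are at most `δ w` with probability close to `1`.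
(3) Blocks with a large neighbour are charged to this neighbour.
-/

set_option autoImplicit false

namespace Pool.Agent.Results.MP_a7b2aa_an.FlatBlocks3

/-- the block `ϱ(s)`, `s = 2 l` -/
noncomputable def block (l : Fin 3 → ℕ) : Finset (Fin 3 → ℤ) :=
  Fintype.piFinset (fun j : Fin 3 =>
    (Finset.Ioo (-(2 : ℤ) ^ (2 * l j)) ((2 : ℤ) ^ (2 * l j))).filter
      (fun t : ℤ => (2 : ℤ) ^ (2 * l j) / 2 ≤ |t|))

/-- the block polynomial `P_s`, `s = 2 l`, with the coefficients `c` -/
noncomputable def blockPoly (c : (Fin 3 → ℤ) → ℂ) (l : Fin 3 → ℕ) (x : Fin 3 → ℝ) : ℂ :=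
  ∑ k ∈ block l, c k * Complex.exp (Complex.I * ∑ j : Fin 3, ((((k j : ℝ) * x j : ℝ)) : ℂ))

/-- the `L ^ 1` norm with respect to the normalised Lebesgue measure on `[0, 2 π] ^ 3` -/
noncomputable def norm1 (F : (Fin 3 → ℝ) → ℂ) : ℝ :=
  (1 / (2 * Real.pi)) ^ 3 *
    ∫ x in Set.pi Set.univ (fun _ : Fin 3 => Set.Icc (0 : ℝ) (2 * Real.pi)), ‖F x‖

/-- For every `K` there is `C > 0` such that for every even `n = 2 m ≥ 2`, all complex coefficients
and all `w > 0` with `‖P_s‖_2 ≤ K max (w, ‖P_s‖_1)` for all `s ∈ Y^3_n`: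
`C w #{s ∈ Y^3_n : ‖P_s‖_1 ≥ w} ≤ n ^ (1 / 2) ‖∑_{s ∈ Y^3_n} P_s‖_∞`. -/
theorem result :
    ∀ K : ℝ, ∃ C : ℝ, 0 < C ∧ ∀ m : ℕ, 1 ≤ m → ∀ (c : (Fin 3 → ℤ) → ℂ) (w : ℝ), 0 < w →
      (∀ l ∈ Finset.Nat.antidiagonalTuple 3 m,
        Real.sqrt (∑ k ∈ block l, ‖c k‖ ^ 2) ≤ K * max w (norm1 (blockPoly c l))) →
      C * (w * (((Finset.Nat.antidiagonalTuple 3 m).filter
        (fun l => w ≤ norm1 (blockPoly c l))).card : ℝ)) ≤
        ((2 * m : ℕ) : ℝ) ^ ((1 : ℝ) / 2) *
          ⨆ x : Fin 3 → ℝ, ‖∑ l ∈ Finset.Nat.antidiagonalTuple 3 m, blockPoly c l x‖ := by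
  intro K
  obtain ⟨C, hC, h⟩ := Pool.Agent.SBF.finalF_all (max 1 K) (le_max_left _ _)
  refine ⟨C, hC, fun m hm c w hw hK => ?_⟩
  have h1 := h m c w hm hw (fun l hl => (hK l hl).trans
    (mul_le_mul_of_nonneg_right (le_max_right _ _) (hw.le.trans (le_max_left _ _))))
  rw [Pool.Agent.SBF.cnt_eq] at h1
  exact h1

end Pool.Agent.Results.MP_a7b2aa_an.FlatBlocks3
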