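import Pool.Agent.Lib.MP_a7b2aa_an.RS.Final

/-!
MP_a7b2aa_an: the trigonometric small ball inequality with the conjectured exponent `(d - 2) / 2`
in every dimension `d ≥ 3`, on average over random signs that depend only on the first `d - 2`
coordinates of the block index, for arbitrary coefficients.

Proof. Work on the grid `(ℤ / 2 ^ L) ^ d`. Let `G_a` be the signed sum of all blocks with first
coordinate `a`. The function `∏ (1 ± w_a)`, `w_a` a band limited version of the sign of `Re G_a`
(a difference of de la Vallee Poussin kernels in the first variable), `a` in a residue class, is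
nonnegative with mean at most `2` for all choices of the signs, and averaging over the signs
kills all cross terms: the mean of the sup norm dominates the sum of the `L^1` norms of the `G_a`.
The `L^1` norm of `G_a`, on average over the remaining signs, dominates the `l^2` norm of the
`L^1` norms of its pieces (Riesz product with imaginary coefficients in the signs), and each piece,
a layer in the last two variables, is treated by a Riesz product with imaginary coefficients in
these two variables, whose cross terms are orthogonal to the whole layer.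
-/

set_option autoImplicit false

namespace Pool.Agent.Results.MP_a7b2aa_an.RandomSigns

open Finset

/-- The block `ϱ(2 l)`: all `k` with `⌊2 ^ (2 l_j - 1)⌋ ≤ |k_j| < 2 ^ (2 l_j)` for every `j`. -/
noncomputable def block {d : ℕ} (l : Fin d → ℕ) : Finset (Fin d → ℤ) :=
  Fintype.piFinset (fun j : Fin d =>
    (Finset.Ioo (-(2 : ℤ) ^ (2 * l j)) ((2 : ℤ) ^ (2 * l j))).filter
      (fun t : ℤ => (2 : ℤ) ^ (2 * l j) / 2 ≤ |t|))

/-- The block polynomial `P_s`, `s = 2 l`, with coefficients `c`. -/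
noncomputable def blockPoly {d : ℕ} (c : (Fin d → ℤ) → ℂ) (l : Fin d → ℕ) (x : Fin d → ℝ) : ℂ :=
  ∑ k ∈ block l, c k * Complex.exp (Complex.I * ∑ j : Fin d, ((((k j : ℝ) * x j : ℝ)) : ℂ))

/-- The `L ^ 1` norm with respect to the normalised Lebesgue measure on `[0, 2 π] ^ d`. -/
noncomputable def norm1 {d : ℕ} (F : (Fin d → ℝ) → ℂ) : ℝ :=
  (1 / (2 * Real.pi)) ^ d *
    ∫ x in Set.pi Set.univ (fun _ : Fin d => Set.Icc (0 : ℝ) (2 * Real.pi)), ‖F x‖

/-- The first `d - 2` coordinates of `l` (for a tuple of sum `m`, so that they are at most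
`m`). -/
def head {d : ℕ} (m : ℕ) (l : Fin d → ℕ) : Fin (d - 2) → Fin (m + 1) :=
  fun j => Fin.ofNat (m + 1) (l (Fin.castLE (Nat.sub_le d 2) j))

/-- The mean, over all choices of signs `η` depending only on the first `d - 2` coordinates of
the block index, of the sup norm of `∑ η_s P_s`, the sum over all `s = 2 l` with
`l_1 + ... + l_d = m`. -/
noncomputable def meanSup {d : ℕ} (m : ℕ) (c : (Fin d → ℤ) → ℂ) : ℝ :=
  (∑ η : (Fin (d - 2) → Fin (m + 1)) → ℤˣ, ⨆ x : Fin d → ℝ,
    ‖∑ l ∈ Finset.Nat.antidiagonalTuple d m, ((η (head m l) : ℤ) : ℂ) * blockPoly c l x‖) /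
    2 ^ ((m + 1) ^ (d - 2))

theorem card_fiber {e : ℕ} (m b : ℕ) :
    ((Finset.Nat.antidiagonalTuple (e + 3) m).filter (fun l => l 0 = b)).card ≤
      (m + 1) ^ (e + 1) := by
  have h : ((Finset.Nat.antidiagonalTuple (e + 3) m).filter (fun l => l 0 = b)).card ≤
      (univ : Finset (Fin (e + 1) → Fin (m + 1))).card := by
    refine Finset.card_le_card_of_injOn
      (fun l j => Fin.ofNat (m + 1) (l (Fin.castSucc (Fin.succ j)))) (fun _ _ => mem_univ _) ?_
    intro l hl l' hl' heq
    rw [Finset.mem_coe, mem_filter, Finset.Nat.mem_antidiagonalTuple] at hl hl'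
    have hb : ∀ (l : Fin (e + 3) → ℕ), ∑ i, l i = m → ∀ i, l i ≤ m := by
      intro l hl i
      rw [← hl]
      exact Finset.single_le_sum (fun _ _ => Nat.zero_le _) (mem_univ i)
    have h1 : ∀ j : Fin (e + 1), l (Fin.castSucc (Fin.succ j)) = l' (Fin.castSucc (Fin.succ j)) := by
      intro j
      have h2 := congrArg Fin.val (congrFun heq j)
      simp only [Fin.val_ofNat] at h2
      rwa [Nat.mod_eq_of_lt (by have := hb l hl.1 (Fin.castSucc (Fin.succ j)); omega),
        Nat.mod_eq_of_lt (by have := hb l' hl'.1 (Fin.castSucc (Fin.succ j)); omega)] at h2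
    have h3 : ∀ j : Fin (e + 2), l (Fin.castSucc j) = l' (Fin.castSucc j) := by
      intro j
      refine Fin.cases ?_ (fun j => ?_) j
      · exact hl.2.trans hl'.2.symm
      · exact h1 j
    funext i
    refine Fin.lastCases ?_ (fun j => h3 j) i
    have s1 := hl.1
    have s2 := hl'.1
    rw [Fin.sum_univ_castSucc] at s1 s2
    rw [Finset.sum_congr rfl fun j _ => h3 j] at s1
    omega
  rwa [card_univ, Fintype.card_fun, Fintype.card_fin, Fintype.card_fin] at h

theorem meanSup_eq {e : ℕ} (m : ℕ) (c : (Fin (e + 3) → ℤ) → ℂ) :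
    meanSup m c = Pool.Agent.MP_a7b2aa_an.RS.EE m c := by
  unfold meanSup Pool.Agent.MP_a7b2aa_an.RS.EE
  have hc : Fintype.card (Fin (e + 1) → Fin (m + 1)) = (m + 1) ^ (e + 3 - 2) := by
    rw [Fintype.card_fun, Fintype.card_fin, Fintype.card_fin, show e + 3 - 2 = e + 1 by omega]
  rw [hc]
  congr 1

/-- For every `d ≥ 3`, all even `n = 2 m ≥ 2` and all coefficients `c`:
(1) the sum over the values `a` of the first coordinate of the `l ^ 2` norms of the families
`(‖P_s‖_1)_{s_1 = 2 a}` is at most `18000` times the mean of the sup norms of the signed sums;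
(2) `∑ ‖P_s‖_1 ≤ 18000 n ^ ((d - 2) / 2)` times that mean. -/
theorem result :
    ∀ d : ℕ, ∀ hd : 3 ≤ d, ∀ m : ℕ, 1 ≤ m → ∀ c : (Fin d → ℤ) → ℂ,
      (∑ a ∈ Finset.range (m + 1), Real.sqrt
        (∑ l ∈ (Finset.Nat.antidiagonalTuple d m).filter (fun l => l ⟨0, by omega⟩ = a),
          norm1 (blockPoly c l) ^ 2) ≤ 18000 * meanSup m c) ∧
      (∑ l ∈ Finset.Nat.antidiagonalTuple d m, norm1 (blockPoly c l) ≤
        18000 * ((2 * m : ℕ) : ℝ) ^ (((d : ℝ) - 2) / 2) * meanSup m c) := by
  intro d hd m hm c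
  obtain ⟨e, rfl⟩ : ∃ e, d = e + 3 := ⟨d - 3, by omega⟩
  have hE : meanSup m c = Pool.Agent.MP_a7b2aa_an.RS.EE m c := meanSup_eq m c
  have hmain : ∑ a ∈ Finset.range (m + 1), Real.sqrt
        (∑ l ∈ (Finset.Nat.antidiagonalTuple (e + 3) m).filter (fun l => l ⟨0, by omega⟩ = a),
          norm1 (blockPoly c l) ^ 2) ≤ 18000 * meanSup m c := by
    rw [hE, Finset.sum_range]
    exact Pool.Agent.MP_a7b2aa_an.RS.torus_l2 m c
  refine ⟨hmain, ?_⟩
  have h1 : ∑ l ∈ Finset.Nat.antidiagonalTuple (e + 3) m, norm1 (blockPoly c l) =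
      ∑ a ∈ Finset.range (m + 1),
        ∑ l ∈ (Finset.Nat.antidiagonalTuple (e + 3) m).filter (fun l => l ⟨0, by omega⟩ = a),
          norm1 (blockPoly c l) := by
    rw [Finset.sum_fiberwise_of_maps_to
      (g := fun l : Fin (e + 3) → ℕ => l (⟨0, by omega⟩ : Fin (e + 3)))]
    intro l hl
    rw [Finset.Nat.mem_antidiagonalTuple] at hl
    rw [mem_range, ← hl]
    exact Nat.lt_succ_of_le (Finset.single_le_sum (fun _ _ => Nat.zero_le _) (mem_univ _))
  have hn : ∀ l, 0 ≤ norm1 (blockPoly c l) := by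
    intro l
    unfold norm1
    refine mul_nonneg (by positivity) ?_
    exact MeasureTheory.integral_nonneg fun _ => norm_nonneg _
  have hk : (0 : ℝ) ≤ Real.sqrt (((m + 1) ^ (e + 1) : ℕ) : ℝ) := Real.sqrt_nonneg _
  have h2 : ∀ a ∈ Finset.range (m + 1),
      ∑ l ∈ (Finset.Nat.antidiagonalTuple (e + 3) m).filter (fun l => l ⟨0, by omega⟩ = a),
          norm1 (blockPoly c l) ≤ Real.sqrt (((m + 1) ^ (e + 1) : ℕ) : ℝ) * Real.sqrt
        (∑ l ∈ (Finset.Nat.antidiagonalTuple (e + 3) m).filter (fun l => l ⟨0, by omega⟩ = a),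
          norm1 (blockPoly c l) ^ 2) := by
    intro a _
    have h3 := Real.sum_mul_le_sqrt_mul_sqrt
      ((Finset.Nat.antidiagonalTuple (e + 3) m).filter (fun l => l ⟨0, by omega⟩ = a))
      (fun _ => (1 : ℝ)) (fun l => norm1 (blockPoly c l))
    simp only [one_mul, one_pow, Finset.sum_const, nsmul_eq_mul, mul_one] at h3
    refine h3.trans (mul_le_mul_of_nonneg_right (Real.sqrt_le_sqrt ?_) (Real.sqrt_nonneg _))
    exact_mod_cast card_fiber m a
  rw [h1]
  refine (Finset.sum_le_sum h2).trans ?_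
  rw [← Finset.mul_sum]
  have hE0 : 0 ≤ meanSup m c := by
    unfold meanSup
    refine div_nonneg (Finset.sum_nonneg fun η _ => ?_) (by positivity)
    exact Real.iSup_nonneg fun x => norm_nonneg _
  have h4 : Real.sqrt (((m + 1) ^ (e + 1) : ℕ) : ℝ) ≤
      ((2 * m : ℕ) : ℝ) ^ ((((e + 3 : ℕ) : ℝ) - 2) / 2) := by
    have h5 : (((m + 1) ^ (e + 1) : ℕ) : ℝ) ≤ ((2 * m : ℕ) : ℝ) ^ (e + 1) := by
      push_cast
      refine pow_le_pow_left₀ (by positivity) ?_ _
      have : (1 : ℝ) ≤ m := by exact_mod_cast hm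
      linarith
    refine (Real.sqrt_le_sqrt h5).trans (le_of_eq ?_)
    rw [Real.sqrt_eq_rpow, ← Real.rpow_natCast, ← Real.rpow_mul (by positivity)]
    congr 1
    push_cast
    ring
  have h6 := mul_le_mul_of_nonneg_left hmain hk
  have h7 := mul_le_mul_of_nonneg_right h4 (by positivity : (0 : ℝ) ≤ 18000 * meanSup m c)
  generalize ((2 * m : ℕ) : ℝ) ^ ((((e + 3 : ℕ) : ℝ) - 2) / 2) = X at h7 ⊢
  refine (h6.trans h7).trans (le_of_eq ?_)
  ring

end Pool.Agent.Results.MP_a7b2aa_an.RandomSigns
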